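import Pool.Agent.Helper97.Speed.LawDefs
import Pool.Agent.Helper66.Speed.Special

/-! # Task V5 of MP_f07f0f_pr: creation of candidates, combinatorial part -/

namespace Pool.Agent.Helper97.Speed

namespace PMap

variable {m m₂ R : PMap} {r : ℕ}

/-! ### degrees and ports -/

lemma Ok.E_subset (h : Ok m R r) : R.E ⊆ m.E := by
  obtain ⟨j, b, n, S, R₀, -⟩ := h; exact R₀.E_subset

lemma Ok.org_eqC (h : Ok m R r) : R.org = m.org := by
  obtain ⟨j, b, n, S, R₀, -⟩ := h; exact R₀.org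

lemma Ok.rev_eqC (h : Ok m R r) : R.rev = m.rev := by
  obtain ⟨j, b, n, S, R₀, -⟩ := h; exact R₀.rev

/-- the degree splits -/
lemma deg_eq_add (h : Ok m R r) : m.deg (m.org r) = R.deg (m.org r) + (m.outD R r).ncard := by
  have h1 : {d | d ∈ m.E ∧ m.org d = m.org r} = {d | d ∈ R.E ∧ R.org d = m.org r} ∪ m.outD R r := by
    ext d
    simp only [Set.mem_ofPred_eq, Set.mem_union, outD, h.org_eqC]
    constructor
    · rintro ⟨h2, h3⟩
      by_cases h4 : d ∈ R.E
      · exact Or.inl ⟨h4, h3⟩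
      · exact Or.inr ⟨h2, h3, h4⟩
    · rintro (⟨h2, h3⟩ | ⟨h2, h3, -⟩)
      · exact ⟨h.E_subset h2, h3⟩
      · exact ⟨h2, h3⟩
  have hf1 : {d | d ∈ R.E ∧ R.org d = m.org r}.Finite := h.hp₂.fin _
  have hf2 : (m.outD R r).Finite := (h.hp.fin (m.org r)).subset fun d hd => ⟨hd.1, hd.2.1⟩
  rw [deg, deg, h1, Set.ncard_union_eq ?_ hf1 hf2]
  rw [Set.disjoint_left]
  rintro d ⟨h2, -⟩ h3
  exact h3.2.2 h2

open Function in
/-- every dart at the origin of `r` is reached by a port smaller than the degree -/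
lemma IsHalfPlane.exists_port (h : m.IsHalfPlane) {r d : ℕ} (hr : r ∈ m.E) (hd : d ∈ m.E)
    (ho : m.org r = m.org d) : ∃ i < m.deg (m.org r), m.step r i = m.rev d := by
  classical
  obtain ⟨k, hk⟩ := h.pre.rot_period hr
  set p := minimalPeriod m.rot r with hp
  have hp0 : 0 < p := IsPeriodicPt.minimalPeriod_pos (Nat.succ_pos k) hk
  have hinj : Set.InjOn (fun i => m.rot^[i] r) (Set.Iio p) := iterate_injOn_Iio_minimalPeriod
  have hsub : (((Finset.range p).image (fun i => m.rot^[i] r) : Finset ℕ) : Set ℕ) ⊆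
      {d | d ∈ m.E ∧ m.org d = m.org r} := by
    intro d hd
    simp only [Finset.coe_image, Finset.coe_range, Set.mem_image, Set.mem_Iio] at hd
    obtain ⟨i, -, rfl⟩ := hd
    exact h.pre.rot_iter_maps (x := m.org r) ⟨hr, rfl⟩ i
  have hdeg : p ≤ m.deg (m.org r) := by
    have h1 := Set.ncard_le_ncard hsub (h.fin _)
    rw [Set.ncard_coe_finset, Finset.card_image_of_injOn (by rwa [Finset.coe_range]),
      Finset.card_range] at h1
    exact h1
  obtain ⟨n, hn⟩ := h.exists_rot hr hd ho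
  refine ⟨n % p, (Nat.mod_lt _ hp0).trans_le hdeg, ?_⟩
  rw [step, hp, iterate_mod_minimalPeriod_eq, hn]

/-! ### creation of a candidate -/

lemma cand_of_special (hok : Ok m R r) (hon : R.OnBd (m.org r))
    (hS : (R.shift (R.idx (m.org r))).Sub (-1) 0 1 2 (.split (.split .edge .edge) .edge) m₂) :
    R.deg (m.org r) = 3 ∧
      ∃ i < m.deg (m.org r), Cand m (R.exploreV (m.org r)) (m.step r i) := by
  set l := R.idx (m.org r) with hl
  have hVl : R.V l = m.org r := V_idx hon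
  have hR := hok.hp₂
  obtain ⟨hexp, hdeg, horg, hnot, hall⟩ := special_explore (hR.shift l) hS
  have hE' : R.exploreV (m.org r) = R.explore l := exploreV_of_eq hR.pre hVl
  rw [explore_shift hR, zero_add] at hexp
  subst hexp
  set f := (R.shift l).rot ((R.shift l).bd 0) with hf
  have hfE : f ∈ R.E ∧ R.org f = R.V l := by
    have := (hR.shift l).pre.rot_iter_maps (x := (R.shift l).V 0) (d := (R.shift l).bd 0)
      ⟨mem_E_of_mem ((hR.shift l).bd_mem 0), rfl⟩ 1
    rw [Function.iterate_one, shift_V, zero_add] at this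
    exact this
  have hfm : f ∈ m.E := hok.E_subset hfE.1
  have hfo : m.org r = m.org f := by rw [← hok.org_eqC, hfE.2, hVl, hok.org_eqC]
  obtain ⟨i, hi, his⟩ := hok.hp.exists_port hok.mem_E hfm hfo
  have hrev : (R.shift l).rev f = m.rev f := by
    show R.rev f = _
    rw [hok.rev_eqC]
  rw [hrev] at horg hnot hall
  have horg' : m.org (m.rev f) = (R.explore l).V l := by
    have h1 : (R.shift l).org (m.rev f) = m.org (m.rev f) := by
      show R.org _ = _
      rw [hok.org_eqC]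
    rw [← h1, horg, shift_V, zero_add]
  refine ⟨?_, i, hi, ?_⟩
  · have h1 : (R.shift l).V 0 = m.org r := by rw [shift_V, zero_add, hVl]
    rw [h1] at hdeg
    exact hdeg
  · rw [hE', his]
    refine ⟨⟨l, horg'.symm⟩, ?_⟩
    ext d
    rw [Set.mem_singleton_iff]
    constructor
    · rintro ⟨h1, h2, h3⟩
      have hdR : d ∈ R.E := by
        by_contra h4
        obtain ⟨j, b, n, T, RG, -⟩ := hok
        have hfR : m.rev f ∈ R.E := by
          have := RG.hp₂.pre.rev_mem_E hfE.1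
          rwa [RG.rev] at this
        obtain ⟨k, -, -, hk⟩ := RG.interface hfR h1 h4 h2
        obtain ⟨S, RS, -⟩ := Sub.reg (hR.shift l) hS
        have h5 := RS.inner 0 (by norm_num) (by norm_num) (k - l)
        apply h5
        rw [shift_V, shift_V, zero_add, sub_add_cancel, ← horg', hk]
      have h5 := hall d hdR (by
        show R.org d = _
        rw [hok.org_eqC, h2, horg', shift_V, zero_add])
      rcases h5 with h5 | h5
      · exact absurd h5 h3
      · exact h5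
    · rintro rfl
      exact ⟨hok.hp.pre.rev_mem_E hfm, rfl, hnot⟩

/-! ### pending darts -/

/-- number of darts not in the remaining map, at a vertex which is not swallowed -/
noncomputable def pend (m R : PMap) : ℕ := {d | d ∈ m.E ∧ d ∉ R.E ∧ ¬ R.Sw (m.org d)}.ncard

lemma Nest.not_mem_E {T : Finset ℕ} (N : Nest m R T) {d : ℕ} (hd : d ∈ m.E) (hd' : d ∉ R.E) :
    d ∈ m.X T := by
  by_contra h
  simp only [X, Set.mem_ofPred_eq, not_or] at h
  apply hd'
  rcases hd with hE | hE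
  · exact Or.inl (by rw [N.In]; exact ⟨hE, h.1⟩)
  · exact Or.inr (by rw [N.rev, N.In]; exact ⟨hE, h.2⟩)

lemma Nest.finite_X {T : Finset ℕ} (N : Nest m R T) : (m.X T).Finite ∧
    (m.X T).ncard ≤ 2 * T.card := by
  classical
  have h1 : m.X T ⊆ ((T ∪ T.image m.rev : Finset ℕ) : Set ℕ) := by
    rintro d (hd | hd)
    · simp [hd]
    · rw [Finset.coe_union, Finset.coe_image]
      exact Or.inr ⟨_, hd, N.hp.rev_rev d⟩
  refine ⟨(Finset.finite_toSet _).subset h1, ?_⟩
  have h2 := Set.ncard_le_ncard h1 (Finset.finite_toSet _)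
  rw [Set.ncard_coe_finset] at h2
  have h3 := Finset.card_union_le T (T.image m.rev)
  have h4 := Finset.card_image_le (s := T) (f := m.rev)
  omega

lemma Nest.ncard_diff {T : Finset ℕ} (N : Nest m R T) : (m.In \ R.In).ncard = T.card := by
  have h1 : m.In \ R.In = (T : Set ℕ) := by
    rw [N.In]
    ext d
    simp only [Set.mem_sdiff, Finset.mem_coe, not_and, not_not]
    exact ⟨fun h => h.2 h.1, fun h => ⟨(N.tri d h).1, fun _ => h⟩⟩
  rw [h1, Set.ncard_coe_finset]

lemma Nest.pend_le {T : Finset ℕ} (N : Nest m R T) : m.pend R ≤ 2 * (m.In \ R.In).ncard := by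
  rw [N.ncard_diff]
  refine le_trans (Set.ncard_le_ncard ?_ N.finite_X.1) N.finite_X.2
  rintro d ⟨h1, h2, -⟩
  exact N.not_mem_E h1 h2

lemma hs_shift_idx (hR : R.IsHalfPlane) (l : ℤ) :
    (R.shift l).hs = (R.In \ (R.explore l).In).ncard := by
  rw [hs, explore_shift hR, zero_add]
  rfl

lemma pend_step (hok : Ok m R r) (hon : R.OnBd (m.org r)) :
    m.pend (R.exploreV (m.org r)) + (m.outD R r).ncard ≤
      m.pend R + 2 * (R.shift (R.idx (m.org r))).hs := by
  set l := R.idx (m.org r) with hl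
  have hVl : R.V l = m.org r := V_idx hon
  have hsw := hok.exploreV.1
  rw [hs_shift_idx hok.hp₂]
  rw [exploreV_of_eq hok.hp₂.pre hVl] at hsw ⊢
  obtain ⟨j', b', n', T', P⟩ := explore_spec hok.hp₂ l
  have N' := P.reg.nest
  rw [N'.ncard_diff]
  obtain ⟨j, b, n, S, R₀, hS, hr⟩ := id hok
  have hfin1 : {d | d ∈ m.E ∧ d ∉ R.E ∧ ¬ R.Sw (m.org d)}.Finite :=
    R₀.nest.finite_X.1.subset fun d hd => R₀.nest.not_mem_E hd.1 hd.2.1
  have hfin2 := N'.finite_X
  have hfin3 : (m.outD R r).Finite :=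
    (hok.hp.fin (m.org r)).subset fun d hd => ⟨hd.1, hd.2.1⟩
  have hsub : {d | d ∈ m.E ∧ d ∉ (R.explore l).E ∧ ¬ (R.explore l).Sw (m.org d)} ∪ m.outD R r ⊆
      {d | d ∈ m.E ∧ d ∉ R.E ∧ ¬ R.Sw (m.org d)} ∪ R.X T' := by
    rintro d (⟨h1, h2, h3⟩ | ⟨h1, h2, h3⟩)
    · by_cases h4 : d ∈ R.E
      · exact Or.inr (N'.not_mem_E h4 h2)
      · exact Or.inl ⟨h1, h4, fun h5 => h3 (P.reg.sw_mono h5)⟩
    · refine Or.inl ⟨h1, h3, ?_⟩
      rw [h2, ← hVl]
      exact not_sw_V hok.hp₂.pre l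
  have hfin4 : {d | d ∈ m.E ∧ d ∉ (R.explore l).E ∧ ¬ (R.explore l).Sw (m.org d)}.Finite :=
    (hfin1.union hfin2.1).subset (Set.subset_union_left.trans hsub)
  have hdisj : Disjoint {d | d ∈ m.E ∧ d ∉ (R.explore l).E ∧ ¬ (R.explore l).Sw (m.org d)}
      (m.outD R r) := by
    rw [Set.disjoint_left]
    rintro d ⟨-, -, h3⟩ ⟨-, h4, -⟩
    rw [h4] at h3
    exact h3 hsw
  calc m.pend (R.explore l) + (m.outD R r).ncard
      = ({d | d ∈ m.E ∧ d ∉ (R.explore l).E ∧ ¬ (R.explore l).Sw (m.org d)} ∪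
          m.outD R r).ncard := by
        rw [Set.ncard_union_eq hdisj hfin4 hfin3]; rfl
    _ ≤ ({d | d ∈ m.E ∧ d ∉ R.E ∧ ¬ R.Sw (m.org d)} ∪ R.X T').ncard :=
        Set.ncard_le_ncard hsub (hfin1.union hfin2.1)
    _ ≤ {d | d ∈ m.E ∧ d ∉ R.E ∧ ¬ R.Sw (m.org d)}.ncard + (R.X T').ncard :=
        Set.ncard_union_le _ _
    _ ≤ m.pend R + 2 * T'.card := Nat.add_le_add le_rfl hfin2.2

end PMap

end Pool.Agent.Helper97.Speed
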