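import Pool.Agent.Helper50.Speed.CandComb
import Pool.Agent.Helper97.Speed.Markov

/-! # Task V5 of MP_f07f0f_pr: linear growth of the number of candidates -/

namespace Pool.Agent.Helper97.Speed

open MeasureTheory Filter Topology ENNReal PMap

variable {α : ℝ} {P : Measure HalfPlane}

/-- an atom is determined by the past -/
lemma PastEq.atom_iff {k : ℕ} {w : List ℕ} (hw : w.length ≤ k) {n : ℕ}
    {p q : HalfPlane × (ℕ → ℕ)} (h : PastEq k w n p q) (C : Cd) :
    q.1 ∈ atom k C ↔ p.1 ∈ atom k C := by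
  obtain ⟨-, φ, T, T', I⟩ := h.mono hw (Nat.zero_le n)
  constructor
  · intro hq
    obtain ⟨C', -, hC'⟩ := exists_atom k p.1
    have hq' : q.1 ∈ atom k C' := SubC.transfer I hC'
    obtain ⟨ψ, S, S', J⟩ := atom_locEq hq' hC'
    exact SubC.transfer J hq
  · intro hp
    exact SubC.transfer I hp

namespace CandG

/-- number of darts at the current vertex which are not in the remaining map -/
noncomputable def rho (k : ℕ) (w : List ℕ) (n : ℕ) (p : HalfPlane × (ℕ → ℕ)) : ℕ :=
  (p.1.1.outD (EE k w p n) (rr w p n)).ncard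

/-- the remaining half-plane, seen from the current vertex -/
noncomputable def gg {k : ℕ} {w : List ℕ} (hw : w.length ≤ k) (n : ℕ)
    (p : HalfPlane × (ℕ → ℕ)) : HalfPlane := (EH hw n p).shift (ix k w n p)

/-- the fresh event in an atom -/
def Fr (k : ℕ) (w : List ℕ) (C : Cd) (n : ℕ) : Set (HalfPlane × (ℕ → ℕ)) :=
  {p | p.1 ∈ atom k C ∧ Fresh k w n p}

/-- the special event -/
def Spec : Set HalfPlane := Has (-1) 0 1 2 (.split (.split .edge .edge) .edge)

lemma measurableSet_spec : MeasurableSet Spec := measurableSet_has _ _ _ _ _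

lemma prob_spec (hP : IsHalfPlaneLaw α P) :
    P Spec = ENNReal.ofReal (α * (α * (1 - α) / 2)) := by
  have h1 := hP.markov (-1) 0 1 2 (.split (.split .edge .edge) .edge) (by norm_num)
    (by simp [Disc.WF]) (by simp [Disc.per]) Set.univ MeasurableSet.univ
  have := hP.prob
  rw [measure_univ, mul_one] at h1
  have h2 : {h : HalfPlane | ∃ h' ∈ (Set.univ : Set HalfPlane),
      h.1.Sub (-1) 0 1 2 (.split (.split .edge .edge) .edge) h'.1} = Spec := by
    ext h
    constructor
    · rintro ⟨h', -, h3⟩; exact ⟨h'.1, h3⟩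
    · rintro ⟨m', h3⟩
      obtain ⟨S, RS, -⟩ := PMap.Sub.reg h.2 h3
      exact ⟨⟨m', RS.hp₂⟩, Set.mem_univ _, h3⟩
  rw [h2] at h1
  rw [h1]
  simp [Disc.inn, Disc.faces]

section

variable {k : ℕ} {w : List ℕ}

lemma rho_past (hw : w.length ≤ k) {n : ℕ} {p q : HalfPlane × (ℕ → ℕ)}
    (h : PastEq k w n p q) : rho k w n q = rho k w n p := by
  obtain ⟨φ, hφ⟩ := h.agree hw
  exact (hφ n le_rfl).outD

lemma ix_past (hw : w.length ≤ k) {n : ℕ} {p q : HalfPlane × (ℕ → ℕ)}
    (h : PastEq k w n p q) : ix k w n q = ix k w n p := by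
  obtain ⟨φ, hφ⟩ := h.agree hw
  exact (hφ n le_rfl).idx

lemma fresh_past (hw : w.length ≤ k) {n : ℕ} {p q : HalfPlane × (ℕ → ℕ)}
    (h : PastEq k w n p q) : Fresh k w n q ↔ Fresh k w n p := by
  obtain ⟨φ, hφ⟩ := h.agree hw
  exact (hφ n le_rfl).onBd

lemma candi_past (hw : w.length ≤ k) {n : ℕ} {p q : HalfPlane × (ℕ → ℕ)}
    (h : PastEq k w n p q) : Candi k w n q ↔ Candi k w n p := by
  obtain ⟨φ, hφ⟩ := h.agree hw
  exact (hφ n le_rfl).cand

lemma fr_past (hw : w.length ≤ k) (C : Cd) {n : ℕ} {p q : HalfPlane × (ℕ → ℕ)}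
    (h : PastEq k w n p q) : q ∈ Fr k w C n ↔ p ∈ Fr k w C n :=
  and_congr (h.atom_iff hw C) (fresh_past hw h)

lemma measurableSet_fr (hw : w.length ≤ k) (C : Cd) (n : ℕ) : MeasurableSet (Fr k w C n) :=
  measurableSet_past hw fun _ _ h hp => (fr_past hw C h).2 hp

lemma measurable_rho (hw : w.length ≤ k) (n : ℕ) : Measurable (rho k w n) := by
  refine measurable_of_locP fun p => ?_
  obtain ⟨K, hK⟩ := exists_pastEq hw p n
  exact ⟨K, fun q hq => rho_past hw (hK q hq)⟩

lemma measurableSet_candi (hw : w.length ≤ k) (n : ℕ) :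
    MeasurableSet {p | Candi k w n p} :=
  measurableSet_past hw fun _ _ h hp => (candi_past hw h).2 hp

lemma measurable_gg (hw : w.length ≤ k) (n : ℕ) : Measurable (gg hw n) :=
  measurable_EH_shift hw n fun _ _ h => ix_past hw h

/-! ### creation of a candidate -/

lemma pre_app' (a b : ℕ → ℕ) (n : ℕ) : pre (app (pre a n) b) n = pre a n := by
  have := pre_app (pre a n) b
  rwa [length_pre] at this

lemma app_at (a b : ℕ → ℕ) (n : ℕ) : app (pre a n) b n = b 0 := by
  have h1 := sh_app (pre a n) b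
  rw [length_pre] at h1
  have := congrFun h1 0
  simpa [sh] using this

lemma candi_lower (hP : IsHalfPlaneLaw α P) (hw : w.length ≤ k) (C : Cd) (n : ℕ) :
    (∫⁻ p, (Fr k w C n).indicator (fun p => ((3 : ℝ≥0∞) + rho k w n p)⁻¹) p ∂law P w) * P Spec ≤
      law P w {p | p.1 ∈ atom k C ∧ Candi k w (n + 1) p} := by
  set B : Set (HalfPlane × (ℕ → ℕ)) := Fr k w C n ∩ gg hw n ⁻¹' Spec ∩ {p | Candi k w (n + 1) p}
    with hB
  have hBm : MeasurableSet B := ((measurableSet_fr hw C n).inter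
    (measurable_gg hw n measurableSet_spec)).inter (measurableSet_candi hw (n + 1))
  have h1 : law P w B ≤ law P w {p | p.1 ∈ atom k C ∧ Candi k w (n + 1) p} :=
    measure_mono fun p hp => ⟨hp.1.1.1, hp.2⟩
  refine le_trans ?_ h1
  have h2 : law P w B = ∫⁻ p, (∫⁻ b, B.indicator 1 (p.1, app (pre p.2 n) b)
      ∂ports (p.1.1.dg (rr w p n))) ∂law P w := by
    rw [← lintegral_indicator_one hBm]
    exact law_markov hP w n (measurable_one.indicator hBm)
  have h3 : (∫⁻ p, (Fr k w C n).indicator (fun p => ((3 : ℝ≥0∞) + rho k w n p)⁻¹) p ∂law P w) *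
      P Spec = ∫⁻ p, (Fr k w C n).indicator (fun p => ((3 : ℝ≥0∞) + rho k w n p)⁻¹) p *
        Spec.indicator 1 (gg hw n p) ∂law P w := by
    rw [← lintegral_indicator_one measurableSet_spec]
    refine (strong_markov hP hw n ?_ (fun p q h => ix_past hw h)
      (measurable_one.indicator measurableSet_spec)).symm
    intro p q h
    by_cases hp : p ∈ Fr k w C n
    · rw [Set.indicator_of_mem hp, Set.indicator_of_mem ((fr_past hw C h).2 hp), rho_past hw h]
    · rw [Set.indicator_of_notMem hp,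
        Set.indicator_of_notMem (fun hq => hp ((fr_past hw C h).1 hq))]
  rw [h2, h3]
  refine lintegral_mono fun p => ?_
  by_cases hp : p ∈ Fr k w C n
  · by_cases hs : gg hw n p ∈ Spec
    · rw [Set.indicator_of_mem hp, Set.indicator_of_mem hs, Pi.one_apply, mul_one]
      obtain ⟨m₂, hm₂⟩ := hs
      have hok := EE_ok hw p n
      obtain ⟨h4, i, hi, hc⟩ := cand_of_special hok hp.2 hm₂
      have hdeg : p.1.1.deg (p.1.1.org (rr w p n)) = 3 + rho k w n p := by
        rw [deg_eq_add hok, h4]; rfl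
      set D := p.1.1.dg (rr w p n) with hD
      have hD0 : D [] = 3 + rho k w n p := hdeg
      have h5 : ∀ b : ℕ → ℕ, b 0 = i → (p.1, app (pre p.2 n) b) ∈ B := by
        intro b hb
        have e1 : rr w (p.1, app (pre p.2 n) b) n = rr w p n := run_congr (pre_app' p.2 b n)
        have e2 : EE k w (p.1, app (pre p.2 n) b) n = EE k w p n :=
          expl_congr (pre_app' p.2 b n)
        have e3 : xx w (p.1, app (pre p.2 n) b) n = xx w p n := by
          rw [xx, xx, e1]
        have e4 : ix k w n (p.1, app (pre p.2 n) b) = ix k w n p := by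
          rw [ix, ix, e2, e3]
        have e5 : EH hw n (p.1, app (pre p.2 n) b) = EH hw n p := Subtype.ext e2
        refine ⟨⟨⟨hp.1, ?_⟩, ?_⟩, ?_⟩
        · rw [Fresh, e2, e3]; exact hp.2
        · show gg hw n (p.1, app (pre p.2 n) b) ∈ Spec
          rw [gg, e4, e5]
          exact ⟨m₂, hm₂⟩
        · show Candi k w (n + 1) (p.1, app (pre p.2 n) b)
          rw [Candi, EE_succ, rr_succ, e1, e2, e3]
          show Cand p.1.1 _ (p.1.1.step (rr w p n) (app (pre p.2 n) b n))
          rw [app_at, hb]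
          exact hc
      have h6 : ports D {b | b 0 = i} = ((3 : ℝ≥0∞) + rho k w n p)⁻¹ := by
        have h7 := ports_step (D := D) (by omega) i MeasurableSet.univ
        simp only [Set.mem_univ, and_true, measure_univ, mul_one] at h7
        rw [h7, if_pos (by rw [hD0, ← hdeg]; exact hi), hD0]
        push_cast
        rfl
      have h80 : Measurable (fun b : ℕ → ℕ => b 0) := measurable_pi_apply 0
      have h8 : MeasurableSet {b : ℕ → ℕ | b 0 = i} := h80 (MeasurableSet.singleton i)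
      rw [← h6, ← lintegral_indicator_one h8]
      refine lintegral_mono fun b => ?_
      by_cases hb : b ∈ {b : ℕ → ℕ | b 0 = i}
      · rw [Set.indicator_of_mem hb, Set.indicator_of_mem (h5 b hb)]
        exact le_rfl
      · rw [Set.indicator_of_notMem hb]; exact zero_le
    · rw [Set.indicator_of_notMem hs, mul_zero]; exact zero_le
  · rw [Set.indicator_of_notMem hp, zero_mul]; exact zero_le

/-! ### pathwise bound -/

open Classical in
lemma path_bound (hw : w.length ≤ k) (p : HalfPlane × (ℕ → ℕ)) (n : ℕ) :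
    (∑ i ∈ Finset.range n, if Fresh k w i p then rho k w i p else 0) +
      p.1.1.pend (EE k w p n) ≤ 2 * (p.1.1.In \ (p.1.1.exh k).In).ncard +
      2 * ∑ i ∈ Finset.range n, if Fresh k w i p then (gg hw i p).1.hs else 0 := by
  induction n with
  | zero =>
    obtain ⟨j, b, c, S, R, -⟩ := exh_reg p.1.2 k
    have h0 : EE k w p 0 = p.1.1.exh k := rfl
    rw [h0]
    simpa using R.nest.pend_le
  | succ n ih =>
    rw [Finset.sum_range_succ, Finset.sum_range_succ]
    by_cases hf : Fresh k w n p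
    · rw [if_pos hf, if_pos hf]
      have h1 := pend_step (EE_ok hw p n) hf
      have h2 : EE k w p (n + 1) = (EE k w p n).exploreV (p.1.1.org (rr w p n)) := rfl
      rw [← h2] at h1
      have h3 : (gg hw n p).1.hs =
        ((EE k w p n).shift ((EE k w p n).idx (p.1.1.org (rr w p n)))).hs := rfl
      have h4 : rho k w n p = (p.1.1.outD (EE k w p n) (rr w p n)).ncard := rfl
      omega
    · rw [if_neg hf, if_neg hf]
      have h2 : EE k w p (n + 1) = EE k w p n := by
        rw [EE_succ]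
        refine exploreV_of_ne fun l hl => hf ⟨l, hl⟩
      rw [h2]
      omega

lemma exists_card (k : ℕ) (C : Cd) :
    ∃ t : ℕ, ∀ h ∈ atom k C, (h.1.In \ (h.1.exh k).In).ncard ≤ t := by
  rcases Set.eq_empty_or_nonempty (atom k C) with h | ⟨h₀, hh₀⟩
  · exact ⟨0, fun g hg => by rw [h] at hg; exact absurd hg (Set.notMem_empty g)⟩
  · obtain ⟨j, b, c, S, R, -⟩ := exh_reg h₀.2 k
    refine ⟨S.card, fun g hg => ?_⟩
    obtain ⟨φ, T, T', I⟩ := atom_locEq hh₀ hg
    rw [I.n2.ncard_diff, I.image_eq, ← R.nest.ncard_diff, I.n1.ncard_diff]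
    exact Finset.card_image_le

end

/-! ### the tangent line -/

lemma tangent (K r : ℕ) :
    (3 + 2 * (K : ℝ≥0∞)) ≤ (3 + (K : ℝ≥0∞)) ^ 2 * ((3 : ℝ≥0∞) + r)⁻¹ + r := by
  have h0 : ((3 : ℝ≥0∞) + r) ≠ 0 := by simp
  have h1 : ((3 : ℝ≥0∞) + r) ≠ ⊤ := by
    exact ENNReal.add_ne_top.2 ⟨by simp, ENNReal.natCast_ne_top r⟩
  have h3 : ((3 + (K : ℝ≥0∞)) ^ 2 * ((3 : ℝ≥0∞) + r)⁻¹ + r) * ((3 : ℝ≥0∞) + r) =
      (3 + (K : ℝ≥0∞)) ^ 2 + r * ((3 : ℝ≥0∞) + r) := by
    rw [add_mul, mul_assoc, ENNReal.inv_mul_cancel h0 h1, mul_one]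
  rw [← ENNReal.mul_le_mul_iff_left h0 h1, h3]
  have h2 : (3 + 2 * K) * (3 + r) ≤ (3 + K) ^ 2 + r * (3 + r) := by
    zify
    nlinarith [sq_nonneg ((K : ℤ) - r)]
  exact_mod_cast h2

end CandG

open CandG in
/-- linear growth of the number of candidates, from the linear growth of the number of fresh
times -/
theorem cand_growth_of (h1 : 0 < α) (h2 : α < 1) (hP : IsHalfPlaneLaw α P)
    (hm : Measurable (fun h : HalfPlane => h.1.hs))
    (hfin : ∫⁻ h : HalfPlane, ((h.1.hs : ℝ≥0∞) + 1) ^ 2 ∂P < ⊤)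
    (hfr : ∃ c : ℝ≥0∞, c ≠ 0 ∧ ∀ (k : ℕ) (w : List ℕ), w.length ≤ k → ∀ C : Cd,
      ∃ C₀ : ℝ≥0∞, C₀ ≠ ⊤ ∧ ∀ n : ℕ, c * P (atom k C) * n ≤
        (∑ i ∈ Finset.range n, law P w {p | p.1 ∈ atom k C ∧ Fresh k w i p}) + C₀) :
    ∃ c : ℝ≥0∞, c ≠ 0 ∧ ∀ (k : ℕ) (w : List ℕ), w.length ≤ k → ∀ C : Cd,
      ∃ C₀ : ℝ≥0∞, C₀ ≠ ⊤ ∧ ∀ n : ℕ, c * P (atom k C) * n ≤
        (∑ i ∈ Finset.Icc 1 n, law P w {p | p.1 ∈ atom k C ∧ Candi k w i p}) + C₀ := by
  classical
  have := hP.prob
  obtain ⟨c, hc, hfr⟩ := hfr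
  -- the first moment
  set e : ℝ≥0∞ := ∫⁻ h : HalfPlane, (h.1.hs : ℝ≥0∞) ∂P with he
  have hetop : e ≠ ⊤ := by
    refine ne_top_of_le_ne_top hfin.ne (lintegral_mono fun h => ?_)
    calc (h.1.hs : ℝ≥0∞) ≤ ((h.1.hs : ℝ≥0∞) + 1) := le_self_add
      _ = ((h.1.hs : ℝ≥0∞) + 1) ^ 1 := (pow_one _).symm
      _ ≤ ((h.1.hs : ℝ≥0∞) + 1) ^ 2 := pow_le_pow_right₀ (by simp) (by norm_num)
  have hm' : Measurable (fun h : HalfPlane => (h.1.hs : ℝ≥0∞)) :=
    (measurable_of_countable (fun n : ℕ => (n : ℝ≥0∞))).comp hm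
  obtain ⟨K, hK⟩ := ENNReal.exists_nat_gt (ENNReal.mul_ne_top (by norm_num : (2 : ℝ≥0∞) ≠ ⊤) hetop)
  set s : ℝ≥0∞ := P Spec with hs
  have hs0 : s ≠ 0 := by
    rw [hs, prob_spec hP]
    simp only [ne_eq, ENNReal.ofReal_eq_zero, not_le]
    have : 0 < 1 - α := by linarith
    positivity
  have hs1 : s ≤ 1 := prob_le_one
  set q : ℝ≥0∞ := 3 + (K : ℝ≥0∞) with hq
  have hq0 : q ≠ 0 := by simp [hq]
  have hqtop : q ≠ ⊤ := ENNReal.add_ne_top.2 ⟨by simp, ENNReal.natCast_ne_top K⟩
  refine ⟨s * c / q, ?_, ?_⟩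
  · rw [ne_eq, ENNReal.div_eq_zero_iff, not_or]
    exact ⟨mul_ne_zero hs0 hc, hqtop⟩
  intro k w hw C
  have : IsProbabilityMeasure (law P w) := by unfold law; infer_instance
  obtain ⟨C₀, hC₀, hfr⟩ := hfr k w hw C
  obtain ⟨t, ht⟩ := exists_card k C
  refine ⟨2 * t + s * q * C₀, ?_, ?_⟩
  · refine ENNReal.add_ne_top.2 ⟨ENNReal.mul_ne_top (by norm_num) (ENNReal.natCast_ne_top t), ?_⟩
    exact ENNReal.mul_ne_top (ENNReal.mul_ne_top (ne_top_of_le_ne_top one_ne_top hs1) hqtop) hC₀
  intro n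
  set φ : ℕ → HalfPlane × (ℕ → ℕ) → ℝ≥0∞ := fun i =>
    (Fr k w C i).indicator (fun p => ((3 : ℝ≥0∞) + rho k w i p)⁻¹) with hφ
  set u : ℕ → HalfPlane × (ℕ → ℕ) → ℝ≥0∞ := fun i =>
    (Fr k w C i).indicator (fun p => (rho k w i p : ℝ≥0∞)) with hu
  set v : ℕ → HalfPlane × (ℕ → ℕ) → ℝ≥0∞ := fun i p =>
    (Fr k w C i).indicator 1 p * ((gg hw i p).1.hs : ℝ≥0∞) with hv
  set M : ℝ≥0∞ := ∑ i ∈ Finset.range n, law P w (Fr k w C i) with hM
  have hMtop : M ≠ ⊤ := by
    rw [hM]
    refine (ENNReal.sum_lt_top.2 fun i _ => ?_).ne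
    exact measure_lt_top _ _
  have hmr : ∀ i, Measurable (fun p => (rho k w i p : ℝ≥0∞)) := fun i =>
    (measurable_of_countable (fun n : ℕ => (n : ℝ≥0∞))).comp (measurable_rho hw i)
  have hmu : ∀ i, Measurable (u i) := fun i => (hmr i).indicator (measurableSet_fr hw C i)
  have hmv : ∀ i, Measurable (v i) := fun i =>
    (measurable_one.indicator (measurableSet_fr hw C i)).mul (hm'.comp (measurable_gg hw i))
  -- step 1
  have h3 : ∀ i, (3 + 2 * (K : ℝ≥0∞)) * law P w (Fr k w C i) ≤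
      q ^ 2 * (∫⁻ p, φ i p ∂law P w) + ∫⁻ p, u i p ∂law P w := by
    intro i
    rw [← lintegral_indicator_one (measurableSet_fr hw C i), ← lintegral_const_mul',
      ← lintegral_const_mul', ← lintegral_add_right _ (hmu i)]
    · refine lintegral_mono fun p => ?_
      by_cases hp : p ∈ Fr k w C i
      · simp only [hφ, hu, Set.indicator_of_mem hp, Pi.one_apply, mul_one]
        exact tangent K (rho k w i p)
      · simp [hφ, hu, Set.indicator_of_notMem hp]
    · exact ENNReal.pow_ne_top hqtop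
    · exact ENNReal.add_ne_top.2 ⟨by simp, ENNReal.mul_ne_top (by simp) (ENNReal.natCast_ne_top K)⟩
  -- step 2
  have h4 : ∀ i, ∫⁻ p, v i p ∂law P w = law P w (Fr k w C i) * e := by
    intro i
    rw [← lintegral_indicator_one (measurableSet_fr hw C i)]
    refine strong_markov hP hw i ?_ (fun p q h => ix_past hw h) hm'
    intro p q h
    by_cases hp : p ∈ Fr k w C i
    · rw [Set.indicator_of_mem hp, Set.indicator_of_mem ((fr_past hw C h).2 hp)]
      rfl
    · rw [Set.indicator_of_notMem hp,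
        Set.indicator_of_notMem (fun hq => hp ((fr_past hw C h).1 hq))]
  have h5 : ∑ i ∈ Finset.range n, ∫⁻ p, u i p ∂law P w ≤ 2 * t + 2 * e * M := by
    rw [← lintegral_finsetSum _ (fun i _ => hmu i)]
    calc ∫⁻ p, ∑ i ∈ Finset.range n, u i p ∂law P w
        ≤ ∫⁻ p, (2 * t + 2 * ∑ i ∈ Finset.range n, v i p) ∂law P w := by
          refine lintegral_mono fun p => ?_
          by_cases hp : p.1 ∈ atom k C
          · have h6 := path_bound hw p n
            have h7 := ht p.1 hp
            have h8 : (∑ i ∈ Finset.range n, if Fresh k w i p then rho k w i p else 0) ≤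
                2 * t + 2 * ∑ i ∈ Finset.range n,
                  if Fresh k w i p then (gg hw i p).1.hs else 0 := by omega
            have h9 : (∑ i ∈ Finset.range n, u i p) =
                ((∑ i ∈ Finset.range n, if Fresh k w i p then rho k w i p else 0 : ℕ) :
                  ℝ≥0∞) := by
              push_cast
              refine Finset.sum_congr rfl fun i _ => ?_
              by_cases hf : Fresh k w i p
              · rw [if_pos hf]
                exact Set.indicator_of_mem (show p ∈ Fr k w C i from ⟨hp, hf⟩) _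
              · rw [if_neg hf]
                exact Set.indicator_of_notMem (fun h => hf h.2) _
            have h10 : (∑ i ∈ Finset.range n, v i p) =
                ((∑ i ∈ Finset.range n, if Fresh k w i p then (gg hw i p).1.hs else 0 : ℕ) :
                  ℝ≥0∞) := by
              push_cast
              refine Finset.sum_congr rfl fun i _ => ?_
              by_cases hf : Fresh k w i p
              · rw [if_pos hf]
                simp only [hv]
                rw [Set.indicator_of_mem (show p ∈ Fr k w C i from ⟨hp, hf⟩), Pi.one_apply,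
                  one_mul]
              · rw [if_neg hf]
                simp only [hv]
                rw [Set.indicator_of_notMem (fun h => hf h.2), zero_mul]
            rw [h9, h10]
            refine (Nat.cast_le.2 h8).trans_eq ?_
            rw [Nat.cast_add, Nat.cast_mul, Nat.cast_mul, Nat.cast_ofNat]
          · have h9 : (∑ i ∈ Finset.range n, u i p) = 0 := by
              refine Finset.sum_eq_zero fun i _ => ?_
              exact Set.indicator_of_notMem (fun h => hp h.1) _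
            rw [h9]; exact zero_le
      _ = 2 * t + 2 * ∑ i ∈ Finset.range n, ∫⁻ p, v i p ∂law P w := by
          rw [lintegral_add_left measurable_const, lintegral_const, measure_univ, mul_one,
            lintegral_const_mul' _ _ (by norm_num), lintegral_finsetSum _ (fun i _ => hmv i)]
      _ = 2 * t + 2 * e * M := by
          simp_rw [h4]
          rw [← Finset.sum_mul, mul_assoc, mul_comm e]
  -- step 3
  set L : ℝ≥0∞ := ∑ i ∈ Finset.Icc 1 n, law P w {p | p.1 ∈ atom k C ∧ Candi k w i p} with hL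
  have hLr : L = ∑ i ∈ Finset.range n, law P w {p | p.1 ∈ atom k C ∧ Candi k w (i + 1) p} := by
    rw [hL]
    clear_value M
    clear hMtop h5 hL hM L
    induction n with
    | zero => simp
    | succ n ih =>
      rw [Finset.sum_Icc_succ_top (by omega), Finset.sum_range_succ, ih]
  set Φ : ℝ≥0∞ := ∑ i ∈ Finset.range n, ∫⁻ p, φ i p ∂law P w with hΦ
  have h6 : Φ * s ≤ L := by
    rw [hLr, hΦ, Finset.sum_mul]
    exact Finset.sum_le_sum fun i _ => candi_lower hP hw C i
  have h7 : (3 + 2 * (K : ℝ≥0∞)) * M ≤ q ^ 2 * Φ + (2 * t + 2 * e * M) := by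
    rw [hM, Finset.mul_sum]
    refine (Finset.sum_le_sum fun i _ => h3 i).trans ?_
    rw [Finset.sum_add_distrib, ← Finset.mul_sum]
    gcongr
  have h8 : q * M ≤ q ^ 2 * Φ + 2 * t := by
    have h9 : q * M + K * M ≤ (q ^ 2 * Φ + 2 * t) + K * M := by
      calc q * M + K * M = (3 + 2 * (K : ℝ≥0∞)) * M := by rw [hq]; ring
        _ ≤ q ^ 2 * Φ + (2 * t + 2 * e * M) := h7
        _ ≤ q ^ 2 * Φ + (2 * t + K * M) := by gcongr
        _ = _ := by ring
    exact (ENNReal.add_le_add_iff_right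
      (ENNReal.mul_ne_top (ENNReal.natCast_ne_top K) hMtop)).1 h9
  have h9 : s * q * (c * P (atom k C) * n) ≤ q ^ 2 * L + (2 * t + s * q * C₀) := by
    calc s * q * (c * P (atom k C) * n) ≤ s * q * (M + C₀) := by
          gcongr
          exact hfr n
      _ = s * (q * M) + s * q * C₀ := by ring
      _ ≤ s * (q ^ 2 * Φ + 2 * t) + s * q * C₀ := by gcongr
      _ = q ^ 2 * (Φ * s) + (s * (2 * t) + s * q * C₀) := by ring
      _ ≤ q ^ 2 * L + (1 * (2 * t) + s * q * C₀) := by gcongr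
      _ = _ := by rw [one_mul]
  have hq2 : q ^ 2 ≠ 0 := pow_ne_zero _ hq0
  have hq2' : q ^ 2 ≠ ⊤ := ENNReal.pow_ne_top hqtop
  rw [← ENNReal.mul_le_mul_iff_right hq2 hq2', mul_add]
  calc q ^ 2 * (s * c / q * P (atom k C) * n) = q * (q / q) * (s * c * P (atom k C) * n) := by
        rw [div_eq_mul_inv, div_eq_mul_inv]; ring
    _ = s * q * (c * P (atom k C) * n) := by rw [ENNReal.div_self hq0 hqtop]; ring
    _ ≤ q ^ 2 * L + (2 * t + s * q * C₀) := h9
    _ ≤ q ^ 2 * L + q ^ 2 * (2 * t + s * q * C₀) := by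
        gcongr
        refine le_mul_of_one_le_left (zero_le) ?_
        have : (1 : ℝ≥0∞) ≤ q := by
          rw [hq]
          calc (1 : ℝ≥0∞) ≤ 3 := by norm_num
            _ ≤ 3 + (K : ℝ≥0∞) := le_self_add
        exact one_le_pow₀ this

end Pool.Agent.Helper97.Speed
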